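import Pool.Agent.H78.MTP.IE
import Pool.Agent.H82.RP.TA

/-!
# IEH: the error term of the sieve for the integers, positions up to `H₀ log X`
-/

set_option autoImplicit false

open Finset Real ArithmeticFunction
open scoped Nat ArithmeticFunction.Moebius

namespace Pool.Agent.H1.RPW

open Pool.Agent.H31.MP
open Pool.Agent.H30.BV (NX wx WX Sf As Er Sad qj PZ lv nl)
open Pool.Agent.H78.MTP
open Pool.Agent.H82.RP

theorem pf_IEH (hINT : Pool.Agent.H31.MP.T_INT) (hSQ : Pool.Agent.H31.MP.T_SQ)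
    (hLE : Pool.Agent.H31.MP.T_LE) (hNC : Pool.Agent.H31.MP.T_NC) (hQC : Pool.Agent.H31.MP.T_QC)
    (hSD : Pool.Agent.H31.MP.T_SD) (hDVK : Pool.Agent.H31.MP.T_DVK) : T_IEH := by
  classical
  intro K b y₀ A δ C H₀ hK hy₀ hδ hδb hC
  obtain ⟨C₁, B₁, hC₁, hD⟩ := hDVK (3 * K * (K + 1))
  obtain ⟨C₂, B₂, hC₂, hS⟩ := hSD K
  obtain ⟨C', hC', hQ⟩ := hQC K δ C hδ hC
  obtain ⟨X₁, hX₁⟩ := logpow (2 * (C ^ 2 * C₁)) (B₁ + A) (1 / 4) (by norm_num)
  obtain ⟨X₂, hX₂⟩ := logpow (8 * C' * C₂ * δ ^ B₂) (B₂ + A) δ hδ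
  obtain ⟨X₃, hX₃⟩ := logpow (max H₀ 20) 1 δ hδ
  obtain ⟨X₄, hX₄⟩ := Filter.eventually_atTop.1
    ((tendsto_rpow_atTop hδ).eventually_ge_atTop ((y₀ : ℝ) + 3))
  refine ⟨max (max X₁ X₂) (max (max X₃ X₄) 16), ?_⟩
  intro X hX Y h l hh hhX hY1 hYX hW
  have e1 : X₁ ≤ X := le_trans (le_trans (le_max_left _ _) (le_max_left _ _)) hX
  have e2 : X₂ ≤ X := le_trans (le_trans (le_max_right _ _) (le_max_left _ _)) hX
  have e3 : X₃ ≤ X := le_trans (le_trans (le_trans (le_max_left _ _) (le_max_left _ _))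
    (le_max_right _ _)) hX
  have e4 : X₄ ≤ X := le_trans (le_trans (le_trans (le_max_right _ _) (le_max_left _ _))
    (le_max_right _ _)) hX
  have e5 : (16 : ℝ) ≤ X := le_trans (le_trans (le_max_right _ _) (le_max_right _ _)) hX
  have hX0 : (0 : ℝ) < X := by linarith
  have hX1 : (1 : ℝ) ≤ X := by linarith
  set z := X ^ δ with hz
  have hz1 : (y₀ : ℝ) + 3 ≤ z := hX₄ X e4
  have hz3 : 3 ≤ z := by
    have : (0 : ℝ) ≤ y₀ := Nat.cast_nonneg _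
    linarith
  have hlX : 1 ≤ Real.log X := by
    rw [Real.le_log_iff_exp_le hX0]
    exact Real.exp_one_lt_d9.le.trans (by linarith)
  have hlz : Real.log z = δ * Real.log X := by rw [hz, Real.log_rpow hX0]
  have hhz : ∀ i, (h i : ℝ) ≤ z := fun i => (hhX i).trans (by
    have h1 := hX₃ X e3
    rw [pow_one] at h1
    exact (mul_le_mul_of_nonneg_right (le_max_left H₀ 20) (by linarith)).trans h1)
  have hYX1 : Y ≤ X := hYX.trans (by
    calc X ^ (1 / 4 : ℝ) ≤ X ^ (1 : ℝ) := Real.rpow_le_rpow_of_exponent_le hX1 (by norm_num)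
      _ = X := Real.rpow_one X)
  have hB := (hQ X Y l (by linarith) hYX1 hW).1
  -- the sieving set
  set P := Pz y₀ z with hP
  have hPm : ∀ p ∈ P, p.Prime ∧ y₀ < p ∧ (p : ℝ) ≤ z := by
    intro p hp
    rw [hP] at hp
    unfold Pz at hp
    obtain ⟨h1, h2, h3⟩ := mem_filter.1 hp
    exact ⟨h2, h3, (Nat.le_floor_iff (by linarith)).1 (mem_Icc.1 h1).2⟩
  have hPZ : P ⊆ PZ z 2 := by
    intro p hp
    obtain ⟨h1, h2, h3⟩ := hPm p hp
    unfold PZ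
    exact mem_filter.2 ⟨mem_Icc.2 ⟨by omega, Nat.le_floor h3⟩, h1, by omega⟩
  have hg : ∀ p ∈ P, 0 ≤ (nu h p : ℝ) / p ∧ (nu h p : ℝ) / p ≤ K / p := by
    intro p hp
    have h1 : (0 : ℝ) < p := by exact_mod_cast (hPm p hp).1.pos
    have h2 : (nu h p : ℝ) ≤ K := by exact_mod_cast nu_le h p
    exact ⟨by positivity, by gcongr⟩
  obtain ⟨hS1, hS2, -, -⟩ := hS z P (fun p => (nu h p : ℝ) / p) b hz3 hPZ hg
  set Sd := Sad P (lv z) (fun j => b + j) (nl z) with hSd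
  have hsP : ∀ s ∈ Sd, ∀ p ∈ s, p ∈ P := by
    intro s hs p hp
    rw [hSd] at hs
    unfold Sad at hs
    exact (mem_powerset.1 (mem_filter.1 hs).1) hp
  unfold Er
  have hkey : ∀ s ∈ Sd, |As (Om X y₀) (fun n => 1 * Lam z Y l h n ^ 2) (dvh h) s -
      (NX X / primorial y₀ * QF z Y l) * ∏ p ∈ s, (nu h p : ℝ) / p| ≤
    (∑ d ∈ Bx K z Y, ∑ e ∈ Bx K z Y,
      if Pco d e then |l d| * |l e| * (((K : ℝ) + 1) ^ s.card * 1) else 0) +
      (NX X : ℝ) * (C' * X ^ (-δ)) * ∏ p ∈ s, (nu h p : ℝ) / p := fun s hs =>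
    ie_key hINT hLE hNC K y₀ z X Y (C' * X ^ (-δ)) h l hh hhz (by linarith) hB s
      (fun p hp => hPm p (hsP s hs p hp))
  refine (Finset.sum_le_sum hkey).trans ?_
  rw [Finset.sum_add_distrib, ← Finset.mul_sum]
  -- first sum
  have hfirst := hSQ K 1 z Y (z ^ (4 * b + 6)) C l (fun _ => 1) Sd hK le_rfl hC (by linarith)
    (by positivity) hW (fun _ => zero_le_one) (fun s hs => ⟨fun p hp =>
      ⟨(hPm p (hsP s hs p hp)).1, (hPm p (hsP s hs p hp)).2.2⟩, hS1 s hs⟩)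
  have hyX : z ^ (4 * b + 6) * Y ^ 2 ≤ X ^ (3 / 4 : ℝ) := by
    have h1 : z ^ (4 * b + 6) ≤ X ^ (1 / 4 : ℝ) := by
      rw [hz, ← Real.rpow_natCast, ← Real.rpow_mul hX0.le]
      refine Real.rpow_le_rpow_of_exponent_le hX1 ?_
      push_cast
      exact hδb
    have h2 : Y ^ 2 ≤ X ^ (1 / 2 : ℝ) := by
      calc Y ^ 2 ≤ (X ^ (1 / 4 : ℝ)) ^ 2 := pow_le_pow_left₀ (by linarith) hYX 2
        _ = X ^ (1 / 2 : ℝ) := by
          rw [← Real.rpow_natCast, ← Real.rpow_mul hX0.le]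
          norm_num
    calc z ^ (4 * b + 6) * Y ^ 2 ≤ X ^ (1 / 4 : ℝ) * X ^ (1 / 2 : ℝ) :=
          mul_le_mul h1 h2 (by positivity) (by positivity)
      _ = X ^ (3 / 4 : ℝ) := by
          rw [← Real.rpow_add hX0]
          norm_num
  set M := ⌊X ^ (3 / 4 : ℝ)⌋₊ with hM
  have hM2 : 2 ≤ M := by
    rw [hM]
    refine Nat.le_floor ?_
    calc ((2 : ℕ) : ℝ) = 16 ^ (1 / 4 : ℝ) := by
          rw [show (16 : ℝ) = 2 ^ (4 : ℝ) by norm_num, ← Real.rpow_mul (by norm_num)]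
          norm_num
      _ ≤ X ^ (1 / 4 : ℝ) := Real.rpow_le_rpow (by norm_num) e5 (by norm_num)
      _ ≤ X ^ (3 / 4 : ℝ) := Real.rpow_le_rpow_of_exponent_le hX1 (by norm_num)
  have hMX : (M : ℝ) ≤ X ^ (3 / 4 : ℝ) := Nat.floor_le (by positivity)
  have hsum : ∑ q ∈ Icc 1 ⌊z ^ (4 * b + 6) * Y ^ 2⌋₊, (3 * (K : ℝ) * (K + 1)) ^ om q * 1 ≤
      X ^ (3 / 4 : ℝ) * (C₁ * Real.log X ^ B₁) := by
    calc ∑ q ∈ Icc 1 ⌊z ^ (4 * b + 6) * Y ^ 2⌋₊, (3 * (K : ℝ) * (K + 1)) ^ om q * 1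
        ≤ ∑ q ∈ Icc 1 M, (3 * (K : ℝ) * (K + 1)) ^ om q * 1 := by
          refine Finset.sum_le_sum_of_subset_of_nonneg (Finset.Icc_subset_Icc_right
            (Nat.floor_le_floor hyX)) fun q _ _ => by positivity
      _ ≤ ∑ q ∈ Icc 1 M, X ^ (3 / 4 : ℝ) *
            (((3 * K * (K + 1) : ℕ) : ℝ) ^ om q / (q.totient : ℝ)) := by
          refine Finset.sum_le_sum fun q hq => ?_
          obtain ⟨hq1, hq2⟩ := mem_Icc.1 hq
          have h1 : (0 : ℝ) < q.totient := by exact_mod_cast Nat.totient_pos.2 hq1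
          have h2 : (q.totient : ℝ) ≤ X ^ (3 / 4 : ℝ) := by
            have h3 : (q.totient : ℝ) ≤ q := by exact_mod_cast Nat.totient_le q
            have h4 : (q : ℝ) ≤ M := by exact_mod_cast hq2
            linarith
          push_cast
          rw [mul_one, ← mul_div_assoc, le_div_iff₀ h1, mul_comm]
          exact mul_le_mul_of_nonneg_right h2 (by positivity)
      _ = X ^ (3 / 4 : ℝ) * ∑ q ∈ Icc 1 M,
            (((3 * K * (K + 1) : ℕ) : ℝ) ^ om q / (q.totient : ℝ)) := by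
          rw [Finset.mul_sum]
      _ ≤ X ^ (3 / 4 : ℝ) * (C₁ * Real.log X ^ B₁) := by
          refine mul_le_mul_of_nonneg_left ((hD M hM2).trans ?_) (by positivity)
          refine mul_le_mul_of_nonneg_left ?_ hC₁.le
          have h1 : (0 : ℝ) < M := by
            have : (2 : ℝ) ≤ M := by exact_mod_cast hM2
            linarith
          refine pow_le_pow_left₀ (Real.log_nonneg (by
            have : (2 : ℝ) ≤ M := by exact_mod_cast hM2
            linarith)) (Real.log_le_log h1 (hMX.trans ?_)) _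
          calc X ^ (3 / 4 : ℝ) ≤ X ^ (1 : ℝ) :=
                Real.rpow_le_rpow_of_exponent_le hX1 (by norm_num)
            _ = X := Real.rpow_one X
  have hlA : 0 < Real.log X ^ A := by positivity
  have hf1 : C ^ 2 * (X ^ (3 / 4 : ℝ) * (C₁ * Real.log X ^ B₁)) ≤ 1 / 2 * (X / Real.log X ^ A) := by
    rw [← mul_div_assoc, le_div_iff₀ hlA]
    have h1 := hX₁ X e1
    have h2 : X = X ^ (3 / 4 : ℝ) * X ^ (1 / 4 : ℝ) := by
      rw [← Real.rpow_add hX0]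
      norm_num
    calc C ^ 2 * (X ^ (3 / 4 : ℝ) * (C₁ * Real.log X ^ B₁)) * Real.log X ^ A
        = 1 / 2 * (X ^ (3 / 4 : ℝ) * (2 * (C ^ 2 * C₁) * Real.log X ^ (B₁ + A))) := by
          rw [pow_add]
          ring
      _ ≤ 1 / 2 * (X ^ (3 / 4 : ℝ) * X ^ (1 / 4 : ℝ)) := by gcongr
      _ = 1 / 2 * X := by rw [← h2]
  have hNX : (NX X : ℝ) ≤ 4 * X := by
    unfold NX
    have := Nat.ceil_lt_add_one (show (0 : ℝ) ≤ 3 * X by linarith)
    linarith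
  have hf2 : (NX X : ℝ) * (C' * X ^ (-δ)) * (C₂ * Real.log z ^ B₂) ≤
      1 / 2 * (X / Real.log X ^ A) := by
    rw [← mul_div_assoc (1 / 2 : ℝ), le_div_iff₀ hlA]
    have h1 := hX₂ X e2
    rw [hlz, mul_pow]
    have h3 : X ^ (-δ) * X ^ δ = 1 := by
      rw [← Real.rpow_add hX0]
      simp
    have h4 : 0 < X ^ (-δ) := by positivity
    have h5 : 0 ≤ Real.log X := by linarith
    calc (NX X : ℝ) * (C' * X ^ (-δ)) * (C₂ * (δ ^ B₂ * Real.log X ^ B₂)) * Real.log X ^ A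
        ≤ (4 * X) * (C' * X ^ (-δ)) * (C₂ * (δ ^ B₂ * Real.log X ^ B₂)) * Real.log X ^ A := by
          gcongr
      _ = 1 / 2 * X * X ^ (-δ) * (8 * C' * C₂ * δ ^ B₂ * Real.log X ^ (B₂ + A)) := by
          rw [pow_add]
          ring
      _ ≤ 1 / 2 * X * X ^ (-δ) * X ^ δ := by gcongr
      _ = 1 / 2 * X * (X ^ (-δ) * X ^ δ) := by ring
      _ = 1 / 2 * X := by rw [h3, mul_one]
  have hA1 : ∑ s ∈ Sd, ∑ d ∈ Bx K z Y, ∑ e ∈ Bx K z Y,
      (if Pco d e then |l d| * |l e| * (((K : ℝ) + 1) ^ s.card * 1) else 0) ≤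
      1 / 2 * (X / Real.log X ^ A) :=
    hfirst.trans ((mul_le_mul_of_nonneg_left hsum (sq_nonneg C)).trans hf1)
  have hA2 : (NX X : ℝ) * (C' * X ^ (-δ)) * ∑ s ∈ Sd, ∏ p ∈ s, (nu h p : ℝ) / p ≤
      1 / 2 * (X / Real.log X ^ A) :=
    (mul_le_mul_of_nonneg_left hS2 (by positivity)).trans hf2
  linarith

end Pool.Agent.H1.RPW
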